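import Pool.Agent.Q109.CE

/-!
# The extreme points of the convex hull of the conjugate degree sequences

The conjugate degree sequence depends only on the numbers `h_m` of vertices of degree `m`, and
`C_n` is an affine copy of `{h ≥ 0 : ∑ h_m = n}` for even `n`, and of
`{h ≥ 0 : ∑ h_m = n, ∑_{m odd} h_m ≤ n - 1}` for odd `n`.
-/

open scoped Classical

namespace Pool.Agent.Results.MP_1867d3_co.ExtremePoints

/-- The degree of the vertex `v` of `G`. -/
noncomputable def deg {n : ℕ} (G : SimpleGraph (Fin n)) (v : Fin n) : ℕ := (G.neighborSet v).ncard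

/-- The conjugate degree sequence of `G`: its `k`-th entry, `k = i + 1` for `i : Fin n`, is the
number of the vertices of degree at least `k`. -/
noncomputable def conjSeq {n : ℕ} (G : SimpleGraph (Fin n)) : Fin n → ℝ :=
  fun i => ({v : Fin n | i.val + 1 ≤ deg G v}.ncard : ℝ)

/-- The polytope `C_n`. -/
def C (n : ℕ) : Set (Fin n → ℝ) := convexHull ℝ {x | ∃ G : SimpleGraph (Fin n), x = conjSeq G}

/-- The conjugate sequence of the degree sequence `(k, ..., k, j)`: its `i`-th entry, `i = 1, ..., n`,
is `(n - 1) [i ≤ k] + [i ≤ j]`. -/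
noncomputable def Q (n k j : ℕ) : Fin n → ℝ := fun i =>
  ((n : ℝ) - 1) * (if i.val + 1 ≤ k then 1 else 0) + (if i.val + 1 ≤ j then 1 else 0)

theorem conjSeq_eq {n : ℕ} (G : SimpleGraph (Fin n)) :
    conjSeq G = Pool.Agent.Q109.CD.cj (Pool.Agent.Q109.CD.dg G) := by
  funext i
  unfold conjSeq Pool.Agent.Q109.CD.cj
  rw [Set.ncard_eq_toFinset_card']
  simp only [Set.toFinset_ofPred]
  rw [Finset.card_filter]
  push_cast
  rfl

/-- **The extreme points of the convex hull of the conjugate degree sequences.** Let `n ≥ 1`. The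
extreme points of `C_n` are the conjugates of the constant sequences `(k, ..., k)`, `k < n`, `n k` even,
and, if `n` is odd, the conjugates of the sequences `(k, ..., k, j)` (`n - 1` entries `k`) with `k` odd,
`j` even and `k, j < n`. The conjugate degree sequence of a graph `G` with `n` vertices is an extreme
point of `C_n` if and only if `G` is regular, or all the vertices of `G` but one have the same odd
degree and the remaining vertex has even degree. -/
theorem result (n : ℕ) (hn : 0 < n) :
    (C n).extremePoints ℝ = {x | ∃ k, k < n ∧ Even (n * k) ∧ x = Q n k k} ∪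
      {x | ∃ k j, k < n ∧ j < n ∧ Odd n ∧ Odd k ∧ Even j ∧ x = Q n k j} ∧
    ∀ G : SimpleGraph (Fin n), conjSeq G ∈ (C n).extremePoints ℝ ↔
      (∃ k, ∀ v, deg G v = k) ∨
      ∃ (v₀ : Fin n) (k : ℕ), Odd k ∧ Even (deg G v₀) ∧ ∀ v, v ≠ v₀ → deg G v = k := by
  have hE : ({x | ∃ k, k < n ∧ Even (n * k) ∧ x = Q n k k} ∪
      {x | ∃ k j, k < n ∧ j < n ∧ Odd n ∧ Odd k ∧ Even j ∧ x = Q n k j} : Set (Fin n → ℝ)) =
      Pool.Agent.Q109.CD.Ext n := rfl
  set S : Set (Fin n → ℝ) := {x | ∃ G : SimpleGraph (Fin n), x = conjSeq G} with hS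
  -- all the conjugate sequences lie in the hull of the listed points
  have hSE : S ⊆ convexHull ℝ (Pool.Agent.Q109.CD.Ext n) := by
    rintro x ⟨G, rfl⟩
    rw [conjSeq_eq]
    refine Pool.Agent.Q109.CD.mem_hull hn _ (Pool.Agent.Q109.CD.dg_lt G) ?_
    intro ho
    by_contra hcon
    push Not at hcon
    have h1 := Pool.Agent.Q109.CD.even_sum_dg G
    have h2 : Odd (∑ v, Pool.Agent.Q109.CD.dg G v) := by
      rw [Finset.odd_sum_iff_odd_card_odd]
      have : (Finset.univ.filter fun v => Odd (Pool.Agent.Q109.CD.dg G v)) = Finset.univ := by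
        rw [Finset.filter_eq_self]
        exact fun v _ => Nat.not_even_iff_odd.mp (hcon v)
      rw [this, Finset.card_univ, Fintype.card_fin]
      exact ho
    exact (Nat.not_even_iff_odd.mpr h2) h1
  -- values of the functionals
  have hL : ∀ (g : ℕ → ℝ) (G : SimpleGraph (Fin n)), Pool.Agent.Q109.CD.L g (conjSeq G) =
      ∑ v, (g (deg G v) - g 0) := by
    intro g G
    rw [conjSeq_eq, Pool.Agent.Q109.CD.L_cj g _ (fun v => (Pool.Agent.Q109.CD.dg_lt G v).le)]
    rfl
  -- an odd number of vertices, odd `k`: not all the degrees are `k`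
  have hodd : ∀ (G : SimpleGraph (Fin n)) (k : ℕ), Odd n → Odd k → ∃ v₀, deg G v₀ ≠ k := by
    intro G k ho hk
    by_contra hcon
    push Not at hcon
    have h1 := Pool.Agent.Q109.CD.even_sum_dg G
    have h2 : ∑ v, Pool.Agent.Q109.CD.dg G v = n * k := by
      have : ∀ v, Pool.Agent.Q109.CD.dg G v = k := hcon
      simp only [this, Finset.sum_const, Finset.card_univ, Fintype.card_fin, smul_eq_mul]
    rw [h2] at h1
    exact (Nat.not_even_iff_odd.mpr (ho.mul hk)) h1
  -- regular graphs
  have hreg : ∀ (G : SimpleGraph (Fin n)) (k : ℕ), (∀ v, deg G v = k) →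
      conjSeq G ∈ (convexHull ℝ S).extremePoints ℝ ∧ conjSeq G = Q n k k := by
    intro G k hG
    have hQ : conjSeq G = Q n k k := by
      rw [conjSeq_eq]
      exact Pool.Agent.Q109.CD.cj_const _ k hG
    refine ⟨?_, hQ⟩
    refine Pool.Agent.Q109.CD.extreme_of_max S _ ⟨G, rfl⟩
      (Pool.Agent.Q109.CD.L fun m => if m = k then 1 else 0) ?_
    rintro s ⟨H, rfl⟩ hne
    rw [hL, hL, Finset.sum_sub_distrib, Finset.sum_sub_distrib]
    refine sub_lt_sub_right ?_ _
    by_contra hcon
    push Not at hcon
    have h1 : ∑ v : Fin n, (if deg G v = k then (1 : ℝ) else 0) = n := by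
      simp only [hG, if_true, Finset.sum_const, Finset.card_univ, Fintype.card_fin, nsmul_eq_mul,
        mul_one]
    rw [h1] at hcon
    have h2 : ∀ v, deg H v = k := Pool.Agent.Q109.CD.eq_const _ k hcon
    apply hne
    rw [hQ, conjSeq_eq]
    exact Pool.Agent.Q109.CD.cj_const _ k h2
  -- nearly regular graphs
  have hnear : ∀ (G : SimpleGraph (Fin n)) (v₀ : Fin n) (k : ℕ), Odd n → Odd k → Even (deg G v₀) →
      (∀ v, v ≠ v₀ → deg G v = k) →
      conjSeq G ∈ (convexHull ℝ S).extremePoints ℝ ∧ conjSeq G = Q n k (deg G v₀) := by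
    intro G v₀ k hno hk hj hG
    have hQ : conjSeq G = Q n k (deg G v₀) := by
      rw [conjSeq_eq]
      exact Pool.Agent.Q109.CD.cj_near _ v₀ k hG
    have hkj : k ≠ deg G v₀ := by
      intro h
      rw [← h] at hj
      exact (Nat.not_even_iff_odd.mpr hk) hj
    refine ⟨?_, hQ⟩
    refine Pool.Agent.Q109.CD.extreme_of_max S _ ⟨G, rfl⟩
      (Pool.Agent.Q109.CD.L fun m => (if m = k then 2 else 0) + (if m = deg G v₀ then 1 else 0)) ?_
    rintro s ⟨H, rfl⟩ hne
    rw [hL, hL, Finset.sum_sub_distrib, Finset.sum_sub_distrib]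
    refine sub_lt_sub_right ?_ _
    by_contra hcon
    push Not at hcon
    have h1 : ∑ v : Fin n, ((if deg G v = k then (2 : ℝ) else 0) +
        (if deg G v = deg G v₀ then (1 : ℝ) else 0)) = 2 * n - 1 := by
      rw [← Finset.add_sum_erase _ _ (Finset.mem_univ v₀), if_neg hkj.symm, if_pos rfl]
      have h2 : ∑ v ∈ Finset.univ.erase v₀, ((if deg G v = k then (2 : ℝ) else 0) +
          (if deg G v = deg G v₀ then (1 : ℝ) else 0)) = ∑ v ∈ Finset.univ.erase v₀, (2 : ℝ) := by
        refine Finset.sum_congr rfl fun v hv => ?_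
        rw [hG v (Finset.ne_of_mem_erase hv), if_pos rfl, if_neg hkj, add_zero]
      rw [h2, Finset.sum_const, Finset.card_erase_of_mem (Finset.mem_univ _), Finset.card_univ,
        Fintype.card_fin, nsmul_eq_mul]
      push_cast [Nat.cast_sub (show 1 ≤ n from hn)]
      ring
    rw [h1] at hcon
    obtain ⟨w, hw⟩ := hodd H k hno hk
    have h3 := (Pool.Agent.Q109.CD.near_of_sum (deg H) k (deg G v₀) hkj w hw).2 hcon
    apply hne
    rw [hQ, conjSeq_eq]
    have h4 := Pool.Agent.Q109.CD.cj_near (Pool.Agent.Q109.CD.dg H) w k h3.2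
    have h5 : Pool.Agent.Q109.CD.dg H w = deg G v₀ := h3.1
    rw [h4, h5]
    rfl
  -- the extreme points
  have hext : (C n).extremePoints ℝ = Pool.Agent.Q109.CD.Ext n := by
    apply Set.Subset.antisymm
    · have hES : Pool.Agent.Q109.CD.Ext n ⊆ S := by
        rintro x (⟨k, hk, he, rfl⟩ | ⟨k, j, hk, hj, hno, hko, hje, rfl⟩)
        · obtain ⟨G, hG⟩ := Pool.Agent.Q109.CD.exists_regular hk he
          exact ⟨G, (hreg G k hG).2.symm⟩
        · have hk1 : k + 1 < n := by
            rcases Nat.lt_or_ge (k + 1) n with h | h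
            · exact h
            · exfalso
              have : n = k + 1 := by omega
              rw [this] at hno
              exact (Nat.not_even_iff_odd.mpr hno) hko.add_one
          obtain ⟨G, v₀, h1, h2⟩ := Pool.Agent.Q109.CD.exists_near hno hko.pos hk1 hje hj
          have h1' : deg G v₀ = j := h1
          refine ⟨G, ?_⟩
          have := (hnear G v₀ k hno hko (by rw [h1']; exact hje) h2).2
          rw [this, h1']
          rfl
      have hCE : C n = convexHull ℝ (Pool.Agent.Q109.CD.Ext n) := by
        apply Set.Subset.antisymm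
        · exact convexHull_min hSE (convex_convexHull ℝ _)
        · exact convexHull_mono hES
      rw [hCE]
      exact extremePoints_convexHull_subset
    · rintro x (⟨k, hk, he, rfl⟩ | ⟨k, j, hk, hj, hno, hko, hje, rfl⟩)
      · obtain ⟨G, hG⟩ := Pool.Agent.Q109.CD.exists_regular hk he
        have := hreg G k hG
        change Q n k k ∈ (convexHull ℝ S).extremePoints ℝ
        rw [← this.2]
        exact this.1
      · have hk1 : k + 1 < n := by
          rcases Nat.lt_or_ge (k + 1) n with h | h
          · exact h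
          · exfalso
            have : n = k + 1 := by omega
            rw [this] at hno
            exact (Nat.not_even_iff_odd.mpr hno) hko.add_one
        obtain ⟨G, v₀, h1, h2⟩ := Pool.Agent.Q109.CD.exists_near hno hko.pos hk1 hje hj
        have h1' : deg G v₀ = j := h1
        have := hnear G v₀ k hno hko (by rw [h1']; exact hje) h2
        change Q n k j ∈ (convexHull ℝ S).extremePoints ℝ
        rw [← h1', ← this.2]
        exact this.1
  refine ⟨by rw [hext, ← hE], fun G => ⟨?_, ?_⟩⟩
  · intro h
    rw [hext] at h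
    rcases h with ⟨k, hk, he, hx⟩ | ⟨k, j, hk, hj, hno, hko, hje, hx⟩
    · left
      refine ⟨k, ?_⟩
      obtain ⟨G', hG'⟩ := Pool.Agent.Q109.CD.exists_regular hk he
      have h1 : conjSeq G = conjSeq G' := by rw [hx, (hreg G' k hG').2]; rfl
      have h2 := congrArg (Pool.Agent.Q109.CD.L fun m => if m = k then 1 else 0) h1
      rw [hL, hL, Finset.sum_sub_distrib, Finset.sum_sub_distrib] at h2
      have h3 := sub_left_injective h2
      refine Pool.Agent.Q109.CD.eq_const _ k ?_
      have h4 : ∑ v : Fin n, (if deg G' v = k then (1 : ℝ) else 0) = n := by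
        have : ∀ v, deg G' v = k := hG'
        simp only [this, if_true, Finset.sum_const, Finset.card_univ, Fintype.card_fin,
          nsmul_eq_mul, mul_one]
      change (n : ℝ) ≤ ∑ v, (if deg G v = k then (1 : ℝ) else 0)
      rw [← h4]
      exact h3.ge
    · right
      have hk1 : k + 1 < n := by
        rcases Nat.lt_or_ge (k + 1) n with h | h
        · exact h
        · exfalso
          have : n = k + 1 := by omega
          rw [this] at hno
          exact (Nat.not_even_iff_odd.mpr hno) hko.add_one
      obtain ⟨G', v₀, h1, h2⟩ := Pool.Agent.Q109.CD.exists_near hno hko.pos hk1 hje hj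
      have h1' : deg G' v₀ = j := h1
      have h2' : ∀ v, v ≠ v₀ → deg G' v = k := h2
      have h3 : conjSeq G = conjSeq G' := by
        rw [hx, (hnear G' v₀ k hno hko (by rw [h1']; exact hje) h2).2, h1']; rfl
      have hkj : k ≠ j := by
        intro h
        rw [← h] at hje
        exact (Nat.not_even_iff_odd.mpr hko) hje
      have h4 := congrArg (Pool.Agent.Q109.CD.L fun m =>
        (if m = k then 2 else 0) + (if m = j then 1 else 0)) h3
      rw [hL, hL, Finset.sum_sub_distrib, Finset.sum_sub_distrib] at h4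
      have h5 := sub_left_injective h4
      have h6 : ∑ v : Fin n, ((if deg G' v = k then (2 : ℝ) else 0) +
          (if deg G' v = j then (1 : ℝ) else 0)) = 2 * n - 1 := by
        rw [← Finset.add_sum_erase _ _ (Finset.mem_univ v₀), h1', if_neg hkj.symm, if_pos rfl]
        have h7 : ∑ v ∈ Finset.univ.erase v₀, ((if deg G' v = k then (2 : ℝ) else 0) +
            (if deg G' v = j then (1 : ℝ) else 0)) = ∑ v ∈ Finset.univ.erase v₀, (2 : ℝ) := by
          refine Finset.sum_congr rfl fun v hv => ?_
          rw [h2' v (Finset.ne_of_mem_erase hv), if_pos rfl, if_neg hkj, add_zero]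
        rw [h7, Finset.sum_const, Finset.card_erase_of_mem (Finset.mem_univ _), Finset.card_univ,
          Fintype.card_fin, nsmul_eq_mul]
        push_cast [Nat.cast_sub (show 1 ≤ n from hn)]
        ring
      obtain ⟨w, hw⟩ := hodd G k hno hko
      have h8 := (Pool.Agent.Q109.CD.near_of_sum (deg G) k j hkj w hw).2
        (by rw [← h6]; exact h5.ge)
      exact ⟨w, k, hko, by rw [h8.1]; exact hje, h8.2⟩
  · rintro (⟨k, hk⟩ | ⟨v₀, k, hko, hje, hk⟩)
    · exact (hreg G k hk).1
    · have hno : Odd n := by
        by_contra hcon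
        rw [Nat.not_odd_iff_even] at hcon
        have h1 := Pool.Agent.Q109.CD.even_sum_dg G
        have h2 : ∑ v, Pool.Agent.Q109.CD.dg G v = deg G v₀ + (n - 1) * k := by
          rw [← Finset.add_sum_erase _ _ (Finset.mem_univ v₀)]
          have h3 : ∑ v ∈ Finset.univ.erase v₀, Pool.Agent.Q109.CD.dg G v =
              ∑ v ∈ Finset.univ.erase v₀, k :=
            Finset.sum_congr rfl fun v hv => hk v (Finset.ne_of_mem_erase hv)
          rw [h3, Finset.sum_const, Finset.card_erase_of_mem (Finset.mem_univ _),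
            Finset.card_univ, Fintype.card_fin, smul_eq_mul]
          rfl
        rw [h2] at h1
        have h4 : Odd ((n - 1) * k) := by
          refine Odd.mul ?_ hko
          obtain ⟨m, hm⟩ := hcon
          exact ⟨m - 1, by omega⟩
        exact (Nat.not_even_iff_odd.mpr (hje.add_odd h4)) h1
      exact (hnear G v₀ k hno hko hje hk).1

end Pool.Agent.Results.MP_1867d3_co.ExtremePoints
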